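import Mathlib.Computability.TuringDegree
import Mathlib.Computability.Primrec.List
import Mathlib.Tactic

/-!
# Relative computability of total functions
-/

namespace Pool.T9h88.IOE

open Encodable

/-- A total function, as a partial one. -/
def tot (u : ℕ → ℕ) : ℕ →. ℕ := fun n => Part.some (u n)

/-- `u` is computable in the oracles `O`. -/
def Rel (O : Set (ℕ →. ℕ)) (u : ℕ → ℕ) : Prop := Nat.RecursiveIn O (tot u)

variable {O : Set (ℕ →. ℕ)} {u v : ℕ → ℕ}

theorem Rel.comp (hu : Rel O u) (hv : Rel O v) : Rel O (fun n => u (v n)) := by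
  refine (Nat.RecursiveIn.comp hu hv).of_eq fun n => ?_
  exact Part.bind_some _ _

theorem Rel.pair (hu : Rel O u) (hv : Rel O v) : Rel O (fun n => Nat.pair (u n) (v n)) := by
  refine (Nat.RecursiveIn.pair hu hv).of_eq fun n => ?_
  simp [tot, Seq.seq]

theorem Rel.of_computable (hu : Computable u) : Rel O u := by
  have h1 : Nat.Partrec (tot u) := Partrec.nat_iff.1 hu
  exact h1.recursiveIn

theorem Rel.prec (hu : Rel O u) (hv : Rel O v) : Rel O (fun p =>
    Nat.rec (motive := fun _ => ℕ) (u p.unpair.1)
      (fun y ih => v (Nat.pair p.unpair.1 (Nat.pair y ih))) p.unpair.2) := by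
  refine (Nat.RecursiveIn.prec hu hv).of_eq fun p => ?_
  show Nat.rec (motive := fun _ => Part ℕ) (tot u p.unpair.1) (fun y IH => do
          let i ← IH
          tot v (Nat.pair p.unpair.1 (Nat.pair y i))) p.unpair.2 = _
  unfold tot
  beta_reduce
  generalize p.unpair.2 = n
  induction n with
  | zero => rfl
  | succ n ih =>
    simp only
    rw [ih]
    exact Part.bind_some _ _

/-- The first `n` values of the `k`-th row of `x`. -/
def hist (x : ℕ → ℕ) (k n : ℕ) : List ℕ := (List.range n).map (fun i => x (Nat.pair k i))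

theorem Rel.hist {x : ℕ → ℕ} (hx : Rel O x) :
    Rel O (fun p => encode (hist x p.unpair.1 p.unpair.2)) := by
  have hu : Rel O (fun _ => encode ([] : List ℕ)) := Rel.of_computable (Computable.const _)
  have hc : Primrec (fun p : ℕ =>
      encode (((decode p.unpair.2 : Option (List ℕ)).getD []) ++ [p.unpair.1])) := by
    refine Primrec.encode.comp (Primrec.list_concat.comp ?_ ?_)
    · exact Primrec.option_getD.comp (Primrec.decode.comp (Primrec.snd.comp Primrec.unpair))
        (Primrec.const _)
    · exact Primrec.fst.comp Primrec.unpair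
  have hidx : Primrec (fun q : ℕ => Nat.pair q.unpair.1 q.unpair.2.unpair.1) :=
    Primrec₂.natPair.comp (Primrec.fst.comp Primrec.unpair)
      (Primrec.fst.comp (Primrec.unpair.comp (Primrec.snd.comp Primrec.unpair)))
  have hih : Primrec (fun q : ℕ => q.unpair.2.unpair.2) :=
    Primrec.snd.comp (Primrec.unpair.comp (Primrec.snd.comp Primrec.unpair))
  have hv : Rel O (fun q => encode (((decode q.unpair.2.unpair.2 : Option (List ℕ)).getD []) ++
      [x (Nat.pair q.unpair.1 q.unpair.2.unpair.1)])) := by
    have h1 := (Rel.of_computable (O := O) hc.to_comp).comp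
      ((hx.comp (Rel.of_computable hidx.to_comp)).pair (Rel.of_computable hih.to_comp))
    simpa using h1
  have h2 := hu.prec hv
  have h3 : (fun p => encode (IOE.hist x p.unpair.1 p.unpair.2)) = (fun p : ℕ =>
    Nat.rec (motive := fun _ => ℕ) (encode ([] : List ℕ))
      (fun y ih => encode (((decode (Nat.pair p.unpair.1 (Nat.pair y ih)).unpair.2.unpair.2 :
        Option (List ℕ)).getD []) ++
      [x (Nat.pair (Nat.pair p.unpair.1 (Nat.pair y ih)).unpair.1
        (Nat.pair p.unpair.1 (Nat.pair y ih)).unpair.2.unpair.1)])) p.unpair.2) := by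
    funext p
    generalize p.unpair.2 = n
    induction n with
    | zero => rfl
    | succ n ih =>
      simp only
      rw [← ih]
      simp [IOE.hist, List.range_succ]
  rw [h3]
  exact h2

end Pool.T9h88.IOE
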