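import Pool.Agent.T9h88.IOE.Lists

/-!
# Capturing computable functions infinitely often
-/

namespace Pool.T9h88.IOE

open Encodable

/-- Double exponential. -/
def B (t : ℕ) : ℕ := 2 ^ (2 ^ t)

theorem B_succ (t : ℕ) : B (t + 1) = B t ^ 2 := by
  unfold B
  rw [← pow_mul, ← pow_succ]

theorem B_pos (t : ℕ) : 0 < B t := by unfold B; positivity

theorem B_mono {s t : ℕ} (h : s ≤ t) : B s ≤ B t :=
  Nat.pow_le_pow_right (by norm_num) (Nat.pow_le_pow_right (by norm_num) h)

theorem pair_lt_B {u w t : ℕ} (hu : u < B t) (hw : w < B t) : Nat.pair u w < B (t + 1) := by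
  rw [B_succ]
  refine lt_of_lt_of_le (Nat.pair_lt_max_add_one_sq u w) ?_
  exact Nat.pow_le_pow_left (by omega) 2

variable {O : Set (ℕ →. ℕ)}

/-- With the oracles `O` one can compute sets of at most `s k` numbers that capture infinitely
often every computable function below `b`. -/
def Cap (O : Set (ℕ →. ℕ)) (s b : ℕ → ℕ) : Prop :=
  ∃ x : ℕ → ℕ, Rel O x ∧ ∀ g : ℕ → ℕ, Computable g → (∀ k, g k < b k) →
    {k | ∃ i < s k, x (Nat.pair k i) = g k}.Infinite

theorem mem_hist {x : ℕ → ℕ} {k n i : ℕ} (hi : i < n) : x (Nat.pair k i) ∈ hist x k n := by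
  unfold hist
  rw [List.mem_map]
  exact ⟨i, List.mem_range.2 hi, rfl⟩

theorem length_hist (x : ℕ → ℕ) (k n : ℕ) : (hist x k n).length = n := by simp [hist]

theorem rel_list {F : ℕ × List ℕ → ℕ} (hF : Computable F) {l : ℕ → List ℕ} {t : ℕ → ℕ}
    (hl : Rel O (fun k => encode (l k))) (ht : Computable t) :
    Rel O (fun p => F (p, l (t p))) := by
  have h1 : Computable (fun q : ℕ => F (q.unpair.1, ((decode q.unpair.2 : Option (List ℕ)).getD []))) := by
    refine hF.comp (Computable.pair (Computable.fst.comp Computable.unpair) ?_)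
    exact Computable.option_getD (Computable.decode.comp (Computable.snd.comp Computable.unpair))
      (Computable.const _)
  have h2 := (Rel.of_computable (O := O) h1).comp
    ((Rel.of_computable (O := O) Computable.id).pair (hl.comp (Rel.of_computable ht)))
  simpa using h2

theorem Cap.halve {N β : ℕ → ℕ} (hN : Computable N) (hN1 : ∀ k, 1 ≤ N k)
    (h : Cap O (fun k => N k * N k) (fun k => B (β k + 1))) : Cap O N (fun k => B (β k)) := by
  obtain ⟨x, hx, h⟩ := h
  let l : ℕ → List ℕ := fun k => hist x k (N k * N k)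
  have hN2 : Computable (fun k => N k * N k) := Primrec.nat_mul.to_comp.comp hN hN
  have hl : Rel O (fun k => encode (l k)) := by
    have h1 := hx.hist.comp ((Rel.of_computable (O := O) Computable.id).pair
      (Rel.of_computable hN2))
    simpa using h1
  have hfst : Computable (fun p : ℕ => p.unpair.1) := Computable.fst.comp Computable.unpair
  let x' : ℕ → ℕ := fun p => (heavy (N p.unpair.1) (fsts (l p.unpair.1))).getD p.unpair.2 0
  have hx' : Rel O x' := by
    have hF : Computable (fun q : ℕ × List ℕ => (heavy (N q.1.unpair.1) (fsts q.2)).getD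
        q.1.unpair.2 0) := by
      refine (Primrec.list_getD 0).to_comp.comp ?_ ?_
      · exact primrec_heavy.to_comp.comp (hN.comp (hfst.comp Computable.fst))
          (primrec_fsts.to_comp.comp Computable.snd)
      · exact Computable.snd.comp (Computable.unpair.comp Computable.fst)
    exact rel_list hF hl hfst
  by_cases hc : ∀ g : ℕ → ℕ, Computable g → (∀ k, g k < B (β k)) →
      {k | ∃ i < N k, x' (Nat.pair k i) = g k}.Infinite
  · exact ⟨x', hx', hc⟩
  push Not at hc
  obtain ⟨z, hz, hzb, hfin⟩ := hc
  have hlight : ∀ k, k ∉ {k | ∃ i < N k, x' (Nat.pair k i) = z k} →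
      (sel (z k) (l k)).length ≤ N k := by
    intro k hk
    by_contra hcon
    push Not at hcon
    apply hk
    rw [sel_length] at hcon
    have h1 : z k ∈ heavy (N k) (fsts (l k)) := by
      rw [mem_heavy]
      have h2 : N k < cnt (z k) (fsts (l k)) := hcon
      refine ⟨?_, h2.le⟩
      rw [cnt_eq] at h2
      exact List.count_pos_iff.1 (by omega)
    obtain ⟨i, hi, h3⟩ := exists_getD h1
    have h4 : (heavy (N k) (fsts (l k))).length ≤ N k := by
      apply heavy_length _ _ (hN1 k)
      simp [fsts, l, length_hist]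
    refine ⟨i, by omega, ?_⟩
    simp only [x', Nat.unpair_pair]
    exact h3
  refine ⟨fun p => (sel (z p.unpair.1) (l p.unpair.1)).getD p.unpair.2 0, ?_, ?_⟩
  · have hF : Computable (fun q : ℕ × List ℕ => (sel (z q.1.unpair.1) q.2).getD
        q.1.unpair.2 0) := by
      refine (Primrec.list_getD 0).to_comp.comp ?_ ?_
      · exact primrec_sel.to_comp.comp (hz.comp (hfst.comp Computable.fst)) Computable.snd
      · exact Computable.snd.comp (Computable.unpair.comp Computable.fst)
    exact rel_list hF hl hfst
  · intro g hg hgb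
    have h1 := h (fun k => Nat.pair (z k) (g k)) (Primrec₂.natPair.to_comp.comp hz hg)
      (fun k => pair_lt_B (hzb k) (hgb k))
    refine (h1.sdiff hfin).mono ?_
    rintro k ⟨⟨i, hi, h2⟩, h3⟩
    have h4 : Nat.pair (z k) (g k) ∈ l k := by
      rw [← h2]
      exact mem_hist hi
    obtain ⟨c, hc, h5⟩ := exists_getD (mem_sel h4)
    have h6 := hlight k h3
    refine ⟨c, by omega, ?_⟩
    simp only [Nat.unpair_pair]
    exact h5

theorem primrec_two_pow : Primrec (fun n : ℕ => 2 ^ n) := by
  have := Primrec.nat_rec₁ (f := fun _ x => x * 2) 1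
    (Primrec.nat_mul.comp Primrec.snd (Primrec.const 2))
  refine this.of_eq fun n => ?_
  induction n with
  | zero => rfl
  | succ n ih => simp only [] at ih ⊢; rw [ih, pow_succ]

theorem primrec_log : Primrec (fun k => Nat.log 2 k) := by
  have h : Primrec (fun k : ℕ => Nat.findGreatest (fun j => 2 ^ j ≤ k) k) :=
    Primrec.nat_findGreatest (p := fun k j => 2 ^ j ≤ k) Primrec.id
      (Primrec.nat_le.comp (primrec_two_pow.comp Primrec.snd) Primrec.fst)
  refine h.of_eq fun k => ?_
  rcases Nat.eq_zero_or_pos k with rfl | hk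
  · simp
  · rw [Nat.findGreatest_eq_iff]
    refine ⟨Nat.log_le_self 2 k, fun _ => Nat.pow_log_le_self 2 hk.ne', fun n hn _ h2 => ?_⟩
    have := Nat.le_log_of_pow_le (by norm_num) h2
    omega

theorem Cap.iterate {β : ℕ → ℕ} (j : ℕ)
    (h : Cap O (fun k => 2 ^ (k * 2 ^ j)) (fun k => B (β k + j))) :
    Cap O (fun k => 2 ^ k) (fun k => B (β k)) := by
  induction j generalizing β with
  | zero => simpa using h
  | succ j ih =>
    apply ih
    apply Cap.halve
    · have h1 : Primrec (fun k : ℕ => 2 ^ (k * 2 ^ j)) := by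
        have h2 : Primrec (fun k : ℕ => 2 ^ k) := by
          exact (Primrec.nat_rec₁ 1 (Primrec.nat_mul.comp (Primrec.const 2)
            (Primrec.snd)).to₂).of_eq fun k => by
              induction k with
              | zero => rfl
              | succ k ih => simp only [ih, pow_succ]; ring
        exact h2.comp (Primrec.nat_mul.comp Primrec.id (Primrec.const _))
      exact h1.to_comp
    · intro k
      exact Nat.one_le_two_pow
    · have h1 : (fun k : ℕ => 2 ^ (k * 2 ^ j) * 2 ^ (k * 2 ^ j)) = fun k => 2 ^ (k * 2 ^ (j + 1)) := by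
        funext k
        rw [← pow_add, pow_succ]
        congr 1
        ring
      rw [h1]
      exact h

end Pool.T9h88.IOE
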