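import Pool.Agent.T9h88.IOE.Basic

/-!
# Heavy and light first coordinates of a list of pairs
-/

namespace Pool.T9h88.IOE

open Encodable

/-- Removal of duplicates. -/
def dd (l : List ℕ) : List ℕ := l.foldr (fun a s => if a ∈ s then s else a :: s) []

theorem mem_dd (l : List ℕ) (u : ℕ) : u ∈ dd l ↔ u ∈ l := by
  induction l with
  | nil => simp [dd]
  | cons a l ih =>
    have h1 : dd (a :: l) = if a ∈ dd l then dd l else a :: dd l := rfl
    rw [h1]
    split_ifs with h2
    · rw [ih, List.mem_cons]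
      constructor
      · exact fun h => Or.inr h
      · rintro (h | h)
        · subst h
          exact ih.1 h2
        · exact h
    · simp [ih]

theorem nodup_dd (l : List ℕ) : (dd l).Nodup := by
  induction l with
  | nil => simp [dd]
  | cons a l ih =>
    have h1 : dd (a :: l) = if a ∈ dd l then dd l else a :: dd l := rfl
    rw [h1]
    split_ifs with h2
    · exact ih
    · exact List.nodup_cons.2 ⟨h2, ih⟩

/-- Number of occurrences. -/
def cnt (u : ℕ) (L : List ℕ) : ℕ := (L.filter (fun v => v = u)).length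

theorem cnt_eq (u : ℕ) (L : List ℕ) : cnt u L = L.count u := by
  unfold cnt
  rw [List.count, List.countP_eq_length_filter]
  congr 1

/-- The values occurring at least `N` times. -/
def heavy (N : ℕ) (L : List ℕ) : List ℕ := dd (L.filter (fun u => N ≤ cnt u L))

theorem mem_heavy (N : ℕ) (L : List ℕ) (u : ℕ) : u ∈ heavy N L ↔ u ∈ L ∧ N ≤ cnt u L := by
  unfold heavy
  rw [mem_dd, List.mem_filter]
  simp

theorem heavy_length (N : ℕ) (L : List ℕ) (hN : 1 ≤ N) (hL : L.length ≤ N * N) :
    (heavy N L).length ≤ N := by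
  classical
  have h1 : (heavy N L).toFinset ⊆ L.toFinset := by
    intro u hu
    rw [List.mem_toFinset] at hu ⊢
    exact ((mem_heavy N L u).1 hu).1
  have h2 : ∑ u ∈ L.toFinset, L.count u = L.length := List.sum_toFinset_count_eq_length L
  have h3 : ∑ u ∈ (heavy N L).toFinset, N ≤ ∑ u ∈ (heavy N L).toFinset, L.count u := by
    refine Finset.sum_le_sum fun u hu => ?_
    rw [List.mem_toFinset] at hu
    rw [← cnt_eq]
    exact ((mem_heavy N L u).1 hu).2
  have h4 : ∑ u ∈ (heavy N L).toFinset, L.count u ≤ ∑ u ∈ L.toFinset, L.count u :=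
    Finset.sum_le_sum_of_subset h1
  rw [Finset.sum_const, smul_eq_mul] at h3
  have h5 : (heavy N L).toFinset.card = (heavy N L).length :=
    List.toFinset_card_of_nodup (nodup_dd _)
  rw [h5] at h3
  have h6 : (heavy N L).length * N ≤ N * N := by omega
  exact Nat.le_of_mul_le_mul_right h6 hN

/-- The second coordinates of the pairs with a given first coordinate. -/
def sel (z : ℕ) (L : List ℕ) : List ℕ :=
  (L.filter (fun v => v.unpair.1 = z)).map (fun v => v.unpair.2)

theorem sel_length (z : ℕ) (L : List ℕ) :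
    (sel z L).length = cnt z (L.map (fun v => v.unpair.1)) := by
  unfold sel cnt
  rw [List.length_map, List.filter_map, List.length_map]
  rfl

theorem mem_sel {z w : ℕ} {L : List ℕ} (h : Nat.pair z w ∈ L) : w ∈ sel z L := by
  unfold sel
  rw [List.mem_map]
  refine ⟨Nat.pair z w, ?_, by simp⟩
  rw [List.mem_filter]
  exact ⟨h, by simp⟩

theorem primrec_dd : Primrec dd := by
  refine Primrec.list_foldr (α := List ℕ) (β := ℕ) (σ := List ℕ) (f := id) (g := fun _ => [])
    (h := fun _ p => if p.1 ∈ p.2 then p.2 else p.1 :: p.2) Primrec.id (Primrec.const []) ?_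
  have he : PrimrecRel (fun (b a : ℕ) => b = a) := Primrec.eq
  have hm : PrimrecRel (fun (s : List ℕ) (a : ℕ) => ∃ b ∈ s, b = a) :=
    PrimrecRel.exists_mem_list he
  have hm1 : PrimrecPred (fun p : List ℕ × (ℕ × List ℕ) => ∃ b ∈ p.2.2, b = p.2.1) :=
    hm.comp (Primrec.snd.comp Primrec.snd) (Primrec.fst.comp Primrec.snd)
  have hm2 : PrimrecPred (fun p : List ℕ × (ℕ × List ℕ) => p.2.1 ∈ p.2.2) :=
    hm1.of_eq fun p => by simp
  exact (Primrec.ite hm2 (Primrec.snd.comp Primrec.snd)
    (Primrec.list_cons.comp (Primrec.fst.comp Primrec.snd) (Primrec.snd.comp Primrec.snd))).to₂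

theorem primrec_cnt : Primrec₂ cnt := by
  have h1 : PrimrecRel (fun (v u : ℕ) => v = u) := Primrec.eq
  exact (Primrec.list_length.comp (h1.listFilter.comp Primrec.snd Primrec.fst)).to₂

theorem primrec_heavy : Primrec₂ heavy := by
  have h1 : PrimrecRel (fun (u : ℕ) (p : ℕ × List ℕ) => p.1 ≤ cnt u p.2) :=
    Primrec.nat_le.comp (Primrec.fst.comp Primrec.snd)
      (primrec_cnt.comp Primrec.fst (Primrec.snd.comp Primrec.snd))
  exact (primrec_dd.comp (h1.listFilter.comp Primrec.snd Primrec.id)).to₂

theorem primrec_sel : Primrec₂ sel := by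
  have h1 : PrimrecRel (fun (v z : ℕ) => v.unpair.1 = z) :=
    Primrec.eq.comp (Primrec.fst.comp (Primrec.unpair.comp Primrec.fst)) Primrec.snd
  exact (Primrec.list_map (h1.listFilter.comp Primrec.snd Primrec.fst)
    (Primrec.snd.comp (Primrec.unpair.comp Primrec.snd)).to₂).to₂

/-- The first coordinates. -/
def fsts (L : List ℕ) : List ℕ := L.map (fun v => v.unpair.1)

theorem primrec_fsts : Primrec fsts :=
  Primrec.list_map Primrec.id (Primrec.fst.comp (Primrec.unpair.comp Primrec.snd)).to₂

theorem exists_getD {l : List ℕ} {u : ℕ} (h : u ∈ l) : ∃ i < l.length, l.getD i 0 = u := by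
  obtain ⟨i, hi, h1⟩ := List.mem_iff_getElem.1 h
  refine ⟨i, hi, ?_⟩
  simp [List.getD_eq_getElem?_getD, hi, h1]

end Pool.T9h88.IOE
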