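import Pool.Agent.T9h88.IOE.Cap

/-!
# Passing between bounds
-/

namespace Pool.T9h88.IOE

open Encodable

variable {O : Set (ℕ →. ℕ)}

theorem toCap {x h : ℕ → ℕ} {β : ℕ → ℕ} {e j : ℕ} (he : 1 ≤ e) (hx : Rel O x)
    (h1 : ∀ y : ℕ → ℕ, Computable y → (∀ n, y n < h n) → {n | x n = y n}.Infinite)
    (hpos : ∀ n, 0 < h n) (hb : ∀ k n, 2 ^ (e * (k + 1)) ≤ n → B (β k + j) ≤ h n)
    (hs : ∀ k, 1 ≤ k → e * (k + 2) ≤ k * 2 ^ j) :
    Cap O (fun k => 2 ^ (k * 2 ^ j)) (fun k => B (β k + j)) := by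
  refine ⟨fun p => x p.unpair.2, hx.comp
    (Rel.of_computable (Computable.snd.comp Computable.unpair)), ?_⟩
  intro g hg hgb
  let K : ℕ → ℕ := fun n => Nat.log 2 n / e
  have hK : Computable K := (Primrec.nat_div.comp primrec_log (Primrec.const e)).to_comp
  let y : ℕ → ℕ := fun n => if K n = 0 then 0 else g (K n - 1)
  have hy : Computable y := by
    have hF : Primrec₂ (fun (k v : ℕ) => if k = 0 then 0 else v) :=
      (Primrec.ite (Primrec.eq.comp Primrec.fst (Primrec.const 0)) (Primrec.const 0)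
        Primrec.snd).to₂
    exact hF.to_comp.comp hK (hg.comp ((Primrec.nat_sub.comp Primrec.id
      (Primrec.const 1)).to_comp.comp hK))
  have hlow : ∀ n k, n ≠ 0 → k ≤ K n → 2 ^ (e * k) ≤ n := by
    intro n k hn hk
    have h2 : k * e ≤ Nat.log 2 n := (Nat.le_div_iff_mul_le (by omega)).1 hk
    rw [mul_comm] at h2
    exact (Nat.pow_le_pow_right (by norm_num) h2).trans (Nat.pow_log_le_self 2 hn)
  have hyb : ∀ n, y n < h n := by
    intro n
    by_cases h0 : K n = 0
    · simp only [y, if_pos h0]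
      exact hpos n
    · simp only [y, if_neg h0]
      have hn : n ≠ 0 := by
        rintro rfl
        apply h0
        simp [K]
      refine lt_of_lt_of_le (hgb _) (hb _ _ (hlow n _ hn (by omega)))
  have h2 := h1 y hy hyb
  refine Set.infinite_of_forall_exists_gt fun a => ?_
  obtain ⟨n, hn, hna⟩ := h2.exists_gt (2 ^ (e * (a + 3)))
  have h3 : a + 3 ≤ K n := by
    refine (Nat.le_div_iff_mul_le (by omega)).2 ?_
    rw [mul_comm]
    exact Nat.le_log_of_pow_le (by norm_num) hna.le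
  refine ⟨K n - 1, ⟨n, ?_, ?_⟩, by omega⟩
  · have h4 : Nat.log 2 n < (K n + 1) * e := (Nat.div_lt_iff_lt_mul (by omega)).1 (Nat.lt_succ_self _)
    have h5 : n < 2 ^ ((K n + 1) * e) := Nat.lt_pow_of_log_lt (by norm_num) h4
    have h6 := hs (K n - 1) (by omega)
    have h7 : (K n + 1) * e = e * (K n - 1 + 2) := by
      rw [mul_comm]
      congr 1
      omega
    rw [h7] at h5
    exact lt_of_lt_of_le h5 (Nat.pow_le_pow_right (by norm_num) h6)
  · simp only [Nat.unpair_pair]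
    have h8 : x n = y n := hn
    rw [h8]
    simp only [y, if_neg (by omega : ¬ K n = 0)]

theorem encode_bound {t : ℕ} (l : List ℕ) (hl : ∀ a ∈ l, a < B t) :
    encode l < B (t + 2 * l.length) := by
  induction l with
  | nil => simp [B_pos]
  | cons a l ih =>
    have h1 := ih fun b hb => hl b (List.mem_cons_of_mem _ hb)
    have h2 : a < B (t + 2 * l.length) :=
      lt_of_lt_of_le (hl a List.mem_cons_self) (B_mono (by omega))
    have h3 := pair_lt_B h2 h1
    rw [encode_list_cons, List.length_cons]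
    have h4 : B (t + 2 * l.length + 1) < B (t + 2 * (l.length + 1)) :=
      Nat.pow_lt_pow_right (by norm_num) (Nat.pow_lt_pow_right (by norm_num) (by omega))
    simp only [encode_nat]
    omega

theorem fromCap {h : ℕ → ℕ} {γ : ℕ → ℕ}
    (hc : Cap O (fun k => 2 ^ k) (fun k => B (γ k + 2 * 2 ^ (k + 1))))
    (hb : ∀ k n, n < 2 ^ (k + 1) → h n ≤ B (γ k)) :
    ∃ x : ℕ → ℕ, Rel O x ∧
      ∀ y : ℕ → ℕ, Computable y → (∀ n, y n < h n) → {n | x n = y n}.Infinite := by
  obtain ⟨x, hx, hc⟩ := hc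
  refine ⟨fun n => ((decode (x (Nat.pair (Nat.log 2 n) (n - 2 ^ Nat.log 2 n))) :
    Option (List ℕ)).getD []).getD n 0, ?_, ?_⟩
  · have hF : Primrec (fun p : ℕ => ((decode p.unpair.1 : Option (List ℕ)).getD []).getD
        p.unpair.2 0) := by
      refine (Primrec.list_getD 0).comp ?_ (Primrec.snd.comp Primrec.unpair)
      exact Primrec.option_getD.comp (Primrec.decode.comp (Primrec.fst.comp Primrec.unpair))
        (Primrec.const _)
    have hidx : Primrec (fun n : ℕ => Nat.pair (Nat.log 2 n) (n - 2 ^ Nat.log 2 n)) :=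
      Primrec₂.natPair.comp primrec_log (Primrec.nat_sub.comp Primrec.id
        (primrec_two_pow.comp primrec_log))
    have h1 := (Rel.of_computable (O := O) hF.to_comp).comp
      ((hx.comp (Rel.of_computable hidx.to_comp)).pair (Rel.of_computable Computable.id))
    simpa using h1
  · intro y hy hyb
    let g : ℕ → ℕ := fun k => encode ((List.range (2 ^ (k + 1))).map y)
    have hg : Computable g := by
      have hr : Rel ∅ (fun p : ℕ => y p.unpair.2) :=
        Rel.of_computable (hy.comp (Computable.snd.comp Computable.unpair))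
      have h1 := hr.hist.comp ((Rel.of_computable (Computable.const 0)).pair
        (Rel.of_computable (primrec_two_pow.comp Primrec.succ).to_comp))
      have h2 : Rel ∅ g := by
        refine Eq.mp ?_ h1
        congr 1
        funext k
        simp [g, hist]
      exact recursiveIn_empty_iff.1 (RecursiveIn.iff_nat.2 h2)
    have hgb : ∀ k, g k < B (γ k + 2 * 2 ^ (k + 1)) := by
      intro k
      have h1 := encode_bound (t := γ k) ((List.range (2 ^ (k + 1))).map y) (by
        intro a ha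
        rw [List.mem_map] at ha
        obtain ⟨i, hi, rfl⟩ := ha
        rw [List.mem_range] at hi
        exact lt_of_lt_of_le (hyb i) (hb k i hi))
      simpa using h1
    have h3 := hc g hg hgb
    refine Set.infinite_of_forall_exists_gt fun a => ?_
    obtain ⟨k, ⟨i, hi, h4⟩, hka⟩ := h3.exists_gt a
    refine ⟨2 ^ k + i, ?_, ?_⟩
    · have hlog : Nat.log 2 (2 ^ k + i) = k := by
        rw [Nat.log_eq_iff (Or.inr ⟨by norm_num, by positivity⟩)]
        refine ⟨by omega, ?_⟩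
        rw [pow_succ]
        have hi' : i < 2 ^ k := hi
        omega
      show ((decode (x (Nat.pair (Nat.log 2 (2 ^ k + i)) (2 ^ k + i - 2 ^ Nat.log 2 (2 ^ k + i)))) :
        Option (List ℕ)).getD []).getD (2 ^ k + i) 0 = y (2 ^ k + i)
      rw [hlog, Nat.add_sub_cancel_left, h4]
      have hlt : 2 ^ k + i < 2 ^ (k + 1) := by
        rw [pow_succ]
        have hi' : i < 2 ^ k := hi
        omega
      simp only [g, encodek, Option.getD_some]
      rw [List.getD_eq_getElem?_getD, List.getElem?_map, List.getElem?_range hlt]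
      rfl
    · have h5 : k < 2 ^ k := Nat.lt_two_pow_self
      omega

theorem exists_exponent (a c : ℕ) : ∃ j : ℕ, 3 * ((c + j + 5) * a + 1) ≤ 2 ^ j := by
  refine ⟨6 * (a + c + 5), ?_⟩
  set s := a + c + 5 with hs
  have h1 : 3 * ((c + 6 * s + 5) * a + 1) ≤ 3 * (7 * s * s + 1) := by
    have h2 : (c + 6 * s + 5) * a ≤ 7 * s * s := Nat.mul_le_mul (by omega) (by omega)
    omega
  have h3 : s + 1 ≤ 2 ^ s := Nat.lt_two_pow_self
  have h4 : (s + 1) ^ 6 ≤ 2 ^ (6 * s) := by
    rw [mul_comm, pow_mul]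
    exact Nat.pow_le_pow_left h3 6
  have h5 : 3 * (7 * s * s + 1) ≤ (s + 1) ^ 6 := by
    have h6 : (s + 1) ^ 6 = (s + 1) ^ 2 * (s + 1) ^ 4 := by ring
    have h7 : 6 ^ 4 ≤ (s + 1) ^ 4 := Nat.pow_le_pow_left (by omega) 4
    have h8 : (s + 1) ^ 2 * 6 ^ 4 ≤ (s + 1) ^ 2 * (s + 1) ^ 4 := Nat.mul_le_mul_left _ h7
    nlinarith
  omega

theorem growth (a c j k : ℕ) :
    ((2 ^ (k + 1)) ^ c + c + 2 * 2 ^ (k + 1) + j) ^ a + a ≤
      2 ^ (((c + j + 5) * a + 1) * (k + 1)) := by
  set X := 2 ^ (k + 1) with hX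
  have hX2 : 2 ≤ X := by
    rw [hX, pow_succ]
    have : 0 < 2 ^ k := by positivity
    omega
  have hpow : ∀ m, m < X ^ m := fun m =>
    lt_of_lt_of_le Nat.lt_two_pow_self (Nat.pow_le_pow_left hX2 m)
  have hXpos : 0 < X := by omega
  have h1 : X ^ c + c + 2 * X + j ≤ X ^ (c + j + 4) := by
    have h2 : X ^ c ≤ X ^ (c + j + 2) := Nat.pow_le_pow_right hXpos (by omega)
    have h3 : c + j ≤ X ^ (c + j + 2) := (hpow (c + j)).le.trans
      (Nat.pow_le_pow_right hXpos (by omega))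
    have h4 : 2 * X ≤ X ^ (c + j + 2) := by
      calc 2 * X ≤ X * X := Nat.mul_le_mul_right _ hX2
        _ = X ^ 2 := by ring
        _ ≤ _ := Nat.pow_le_pow_right hXpos (by omega)
    have h5 : 4 * X ^ (c + j + 2) ≤ X ^ (c + j + 4) := by
      have : X ^ (c + j + 4) = X * X * X ^ (c + j + 2) := by ring
      rw [this]
      exact Nat.mul_le_mul_right _ (by nlinarith)
    omega
  have h6 : (X ^ c + c + 2 * X + j) ^ a ≤ X ^ ((c + j + 4) * a) := by
    rw [pow_mul]
    exact Nat.pow_le_pow_left h1 a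
  have h7 : X ^ ((c + j + 4) * a) + a ≤ X ^ ((c + j + 4) * a) * X ^ a := by
    have h8 := hpow a
    have h9 : 0 < X ^ ((c + j + 4) * a) := by positivity
    nlinarith
  have h10 : 2 ^ (((c + j + 5) * a + 1) * (k + 1)) = X ^ ((c + j + 5) * a + 1) := by
    rw [hX, ← pow_mul, mul_comm]
  rw [h10]
  calc (X ^ c + c + 2 * X + j) ^ a + a ≤ X ^ ((c + j + 4) * a) + a := by omega
    _ ≤ X ^ ((c + j + 4) * a) * X ^ a := h7
    _ = X ^ ((c + j + 5) * a) := by ring
    _ ≤ _ := Nat.pow_le_pow_right hXpos (by omega)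

/-- The transfer theorem, for arbitrary oracles. -/
theorem transfer {h₁ h₂ : ℕ → ℕ} (hpos : ∀ n, 0 < h₁ n)
    (hlow : ∃ a : ℕ, ∀ m n : ℕ, m ^ a + a ≤ n → 2 ^ (2 ^ m) ≤ h₁ n)
    (hupp : ∃ c : ℕ, ∀ n : ℕ, h₂ n ≤ 2 ^ (2 ^ (n ^ c + c)))
    {x : ℕ → ℕ} (hx : Rel O x)
    (h : ∀ y : ℕ → ℕ, Computable y → (∀ n, y n < h₁ n) → {n | x n = y n}.Infinite) :
    ∃ x' : ℕ → ℕ, Rel O x' ∧
      ∀ y : ℕ → ℕ, Computable y → (∀ n, y n < h₂ n) → {n | x' n = y n}.Infinite := by
  obtain ⟨a, ha⟩ := hlow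
  obtain ⟨c, hc⟩ := hupp
  obtain ⟨j, hj⟩ := exists_exponent a c
  have h1 : Cap O (fun k => 2 ^ (k * 2 ^ j))
      (fun k => B ((2 ^ (k + 1)) ^ c + c + 2 * 2 ^ (k + 1) + j)) := by
    refine toCap (e := (c + j + 5) * a + 1) (β := fun k => (2 ^ (k + 1)) ^ c + c + 2 * 2 ^ (k + 1))
      (by omega) hx h hpos ?_ ?_
    · intro k n hn
      exact ha _ n ((growth a c j k).trans hn)
    · intro k hk
      set e := (c + j + 5) * a + 1 with he
      have h2 : e * (k + 2) ≤ e * (3 * k) := Nat.mul_le_mul_left _ (by omega)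
      have h3 : e * (3 * k) = k * (3 * e) := by ring
      have h4 : k * (3 * e) ≤ k * 2 ^ j := Nat.mul_le_mul_left _ hj
      omega
  have h2 := Cap.iterate (β := fun k => (2 ^ (k + 1)) ^ c + c + 2 * 2 ^ (k + 1)) j h1
  refine fromCap (γ := fun k => (2 ^ (k + 1)) ^ c + c) h2 ?_
  intro k n hn
  refine (hc n).trans (B_mono ?_)
  have h3 : n ^ c ≤ (2 ^ (k + 1)) ^ c := Nat.pow_le_pow_left hn.le c
  omega

end Pool.T9h88.IOE
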